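import Pool.Agent.J6H85.CU.Main

/-!
# The motivic monodromy conjecture at points: cubic polynomials suffice

`k` is a subfield of `ℂ`, `K` a field which contains `k`, `f` a non-constant polynomial over `k`, and `x` a
point with coordinates in `K` and `f(x) = 0`. The conjecture for the local motivic zeta function
`Z_{f,x}(T)` (jets with `f(ψ) = t ^ m`, in `𝓜_K[[T]]`) is reduced to polynomials
`F = q_0(w) + ∑_i t_i q_i(w)`, `deg q_i ≤ 2`, all monomials squarefree (`Cub F`):

* in a refined form, over `𝓜_K` itself: `(1 - 𝕃⁻¹ T) Z_{f,x}(T)` is in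
  `𝓜_K[T, 1 / (1 - 𝕃 ^ a T ^ b)]`, with pairs such that `a / b` is a root of every `c(s)` for which
  `(s + 1) c(s)` satisfies a functional equation of `f` (so of `b_f(s) / (s + 1)`);
* in the form of the problem, for the images of the zeta functions under the homomorphisms
  `θ : 𝓜_K → R` for which all `θ(𝕃) ^ i - 1`, `i ≥ 1`, are invertible; the universal one is
  `𝓜_K → 𝓜_K[(𝕃 ^ i - 1)⁻¹ : i ≥ 1]`.

Both is proved for the global functional equations on `𝔸 ^ n`, all points `x`, and for the local
functional equations at the origin, `x = 0` (this is Q1 for all neighbourhoods `X` of `0` in `𝔸 ^ n`).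

For this form of the zeta function (with a condition on the coefficient of `t ^ m`) the zeta function of
`f + y z` is not determined by that of `f`: also the classes of the jets with `ord f ≥ i` occur. The
zeta functions of `F`, `F + y_1 z_1`, ... together determine it; all these are cubics of the same kind.
For the origins `(x, 0, 0)` the relations contain additional terms, which are
computed. In the second form the pole of `F_j = F + y_1 z_1 + ⋯ + y_j z_j` at `-1` is moved to `κ + j - 1`;
as this place depends on `j`, such poles are excluded by a comparison of two expressions for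
`Z_{f,x}(T)`, one with `j = 0, 1` and one with `j = 2, 3`.
-/

set_option autoImplicit false

namespace Pool.Agent.Results.MP_b91a16_ag.CubicsSuffice

open MvPolynomial Pool.Agent.W428.MOT Pool.Agent.J6H85.CU
open Pool.Agent.H628R4.TP (IsBFunction IsLocalBFunction)
open Pool.Agent.N101.CB (Cub)
open Pool.Agent.Y229.MS (addyz itr)

/-- The two kinds of functional equations: the polynomials `b(s)` with `b(s) f ^ s = P(s) f ^ (s + 1)`,
`P(s)` in the Weyl algebra (`loc = false`), or with formal power series at the origin as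
coefficients (`loc = true`). -/
def Feq (loc : Bool) {n : ℕ} (f : MvPolynomial (Fin n) ℂ) (b : Polynomial ℂ) : Prop :=
  if loc then IsLocalBFunction f b else IsBFunction f b

section
variable {k : Type} [Field k] [Algebra k ℂ] {K : Type} [Field K] [Algebra k K] {n : ℕ}

/-- **The conjecture (Q1) for `f` at the point `x`.** There is a finite set `S` of pairs `(a, b)` of
integers such that `b > 0`, `a / b` is a root of every `b(s)` which satisfies a functional equation
of `f`, in particular of `b_f` (hence `a < 0`), and `Z_{f,x}(T)` is in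
`𝓜_K[T, 1 / (1 - 𝕃 ^ a T ^ b)]`, `(a, b) ∈ S`. -/
def Strong (loc : Bool) (f : MvPolynomial (Fin n) k) (x : Fin n → K) : Prop :=
  ∃ S : Finset (ℤ × ℤ),
    (∀ p ∈ S, 0 < p.2 ∧ ∀ b : Polynomial ℂ, Feq loc (map (algebraMap k ℂ) f) b →
      b.eval ((p.1 : ℂ) / p.2) = 0) ∧
    zeta (map (algebraMap k K) f) x ∈ ratRing K S

/-- **The refined form of the conjecture.** There is a finite set `S` of pairs `(a, b)` of
integers such that `b > 0`, `a / b` is a root of every `c(s)` such that `(s + 1) c(s)` satisfies a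
functional equation of `f`, in particular of `b_f(s) / (s + 1)`, and `(1 - 𝕃⁻¹ T) Z_{f,x}(T)` is in
`𝓜_K[T, 1 / (1 - 𝕃 ^ a T ^ b)]`, `(a, b) ∈ S`. -/
def Refined (loc : Bool) (f : MvPolynomial (Fin n) k) (x : Fin n → K) : Prop :=
  ∃ S : Finset (ℤ × ℤ),
    (∀ p ∈ S, 0 < p.2 ∧ ∀ c : Polynomial ℂ,
      Feq loc (map (algebraMap k ℂ) f) ((Polynomial.X + 1) * c) →
        c.eval ((p.1 : ℂ) / p.2) = 0) ∧
    (1 - PowerSeries.C (((Lu K)⁻¹ : (MK K)ˣ) : MK K) * PowerSeries.X) *
      zeta (map (algebraMap k K) f) x ∈ ratRing K S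

/-- **The conjecture for the image of `Z_{f,x}(T)` under `θ : 𝓜_K → R`.** `Lw θ = θ(𝕃)`, and
`rat (Lw θ) S` is the ring generated over `R` by `T` and the `1 / (1 - θ(𝕃) ^ a T ^ b)`, `(a, b) ∈ S`. The rest
is as in `Strong`. -/
def StrongIn {R : Type} [CommRing R] (θ : MK K →+* R) (loc : Bool) (f : MvPolynomial (Fin n) k)
    (x : Fin n → K) : Prop :=
  ∃ S : Finset (ℤ × ℤ),
    (∀ p ∈ S, 0 < p.2 ∧ ∀ b : Polynomial ℂ, Feq loc (map (algebraMap k ℂ) f) b →
      b.eval ((p.1 : ℂ) / p.2) = 0) ∧
    PowerSeries.map θ (zeta (map (algebraMap k K) f) x) ∈ rat (Lw θ) S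

/-- The refined form for the image under `θ`. -/
def RefinedIn {R : Type} [CommRing R] (θ : MK K →+* R) (loc : Bool) (f : MvPolynomial (Fin n) k)
    (x : Fin n → K) : Prop :=
  ∃ S : Finset (ℤ × ℤ),
    (∀ p ∈ S, 0 < p.2 ∧ ∀ c : Polynomial ℂ,
      Feq loc (map (algebraMap k ℂ) f) ((Polynomial.X + 1) * c) →
        c.eval ((p.1 : ℂ) / p.2) = 0) ∧
    (1 - PowerSeries.C (((Lw θ)⁻¹ : Rˣ) : R) * PowerSeries.X) *
      PowerSeries.map θ (zeta (map (algebraMap k K) f) x) ∈ rat (Lw θ) S

/-- **The reduction of `f` at `x` to `F_j = itr F j = F + y_1 z_1 + ⋯ + y_j z_j` at `pz y j = (y, 0)`.**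
(1) The refined form for `F` at `y` and for `F_1` at `(y, 0)` implies the refined form for `f` at `x`.
(2) The same for the images under every `θ : 𝓜_K → R`.
(3) If all `θ(𝕃) ^ i - 1`, `i ≥ 1`, are invertible, then the conjecture for the images under `θ` for the
`F_j` at `(y, 0)`, `j = 0, 1, 2, 3`, implies the refined form for the image under `θ`, and the
conjecture for the image under `θ`, for `f` at `x`. -/
def Reduces (loc : Bool) {m : ℕ} (f : MvPolynomial (Fin n) k) (x : Fin n → K)
    (F : MvPolynomial (Fin m) k) (y : Fin m → K) : Prop :=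
  (Refined loc F y → Refined loc (itr F 1) (pz y 1) → Refined loc f x) ∧
    ∀ (R : Type) [CommRing R] (θ : MK K →+* R),
      (RefinedIn θ loc F y → RefinedIn θ loc (itr F 1) (pz y 1) → RefinedIn θ loc f x) ∧
      ((∀ i : ℕ, 0 < i → IsUnit (θ (Lu K) ^ i - 1)) →
        (∀ j < 4, StrongIn θ loc (itr F j) (pz y j)) → RefinedIn θ loc f x ∧ StrongIn θ loc f x)

/-- The reduction of the conjecture for `f` at all points to `F`, `F_j = itr F j`: all `F_j` satisfy
`Cub F_j`; for every field `K ⊃ k` and every point `x` with coordinates in `K` and `f(x) = 0` there is a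
point `y` with coordinates in `K` and `F(y) = 0` such that the conjecture for `f` at `x` is reduced to the
`F_j` at `(y, 0)` (`Reduces`, for the global functional equations); if `x = 0`, then `y = 0` and the same
is true for the local functional equations at the origin. -/
def ReducesTo {m : ℕ} (f : MvPolynomial (Fin n) k) (F : MvPolynomial (Fin m) k) : Prop :=
  F.totalDegree ≠ 0 ∧ (∀ j : ℕ, Cub (itr F j)) ∧
    ∀ (K : Type) [Field K] [Algebra k K] (x : Fin n → K), aeval x f = 0 →
      ∃ y : Fin m → K, aeval y F = 0 ∧ Reduces false f x F y ∧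
        (x = 0 → y = 0 ∧ Reduces true f x F y)

end

/-- The property `P` holds for the polynomials with `Cub f` (`cub = true`), or for all polynomials
(`cub = false`), non-constant, with coefficients in `k`, at all points `x` with coordinates in `K` and
`f(x) = 0`. -/
def AtPoints (k K : Type) [Field k] [Field K] [Algebra k K] (cub : Bool)
    (P : ∀ n : ℕ, MvPolynomial (Fin n) k → (Fin n → K) → Prop) : Prop :=
  ∀ (n : ℕ) (f : MvPolynomial (Fin n) k), (cub = true → Cub f) → f.totalDegree ≠ 0 →
    ∀ x : Fin n → K, aeval x f = 0 → P n f x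

/-- The same for the point `x = 0` only. -/
def AtZero (k K : Type) [Field k] [Field K] [Algebra k K] (cub : Bool)
    (P : ∀ n : ℕ, MvPolynomial (Fin n) k → (Fin n → K) → Prop) : Prop :=
  ∀ (n : ℕ) (f : MvPolynomial (Fin n) k), (cub = true → Cub f) → f.totalDegree ≠ 0 →
    constantCoeff f = 0 → P n f 0

/-- For fixed `k` and `K`, cubic polynomials suffice: the refined form holds for all non-constant
polynomials over `k` at all points with coordinates in `K` if and only if this is true for the
polynomials with `Cub f`; for the local functional equations at the origin and `x = 0` the same; and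
the same for the conjecture for the images under every `θ : 𝓜_K → R` such that all `θ(𝕃) ^ i - 1`, `i ≥ 1`,
are invertible. -/
def Equivalence (k K : Type) [Field k] [Algebra k ℂ] [Field K] [Algebra k K] : Prop :=
  (AtPoints k K false (fun _ f x => Refined false f x) ↔
    AtPoints k K true (fun _ f x => Refined false f x)) ∧
  (AtZero k K false (fun _ f x => Refined true f x) ↔
    AtZero k K true (fun _ f x => Refined true f x)) ∧
  ∀ (R : Type) [CommRing R] (θ : MK K →+* R), (∀ i : ℕ, 0 < i → IsUnit (θ (Lu K) ^ i - 1)) →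
    (AtPoints k K false (fun _ f x => StrongIn θ false f x) ↔
      AtPoints k K true (fun _ f x => StrongIn θ false f x)) ∧
    (AtZero k K false (fun _ f x => StrongIn θ true f x) ↔
      AtZero k K true (fun _ f x => StrongIn θ true f x))

section
variable {k : Type} [Field k] [Algebra k ℂ] {K : Type} [Field K] [Algebra k K] {n : ℕ}

theorem map_id' {R : Type} [CommRing R] (z : PowerSeries R) :
    PowerSeries.map (RingHom.id R) z = z := by
  ext n
  rw [PowerSeries.coeff_map, RingHom.id_apply]

theorem Lw_id : Lw (RingHom.id (MK K)) = Lu K := Units.ext rfl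

theorem iff_rat {R : Type} [CommRing R] {u : Rˣ} {z : PowerSeries R} {G : Set (ℤ × ℤ)} :
    (∃ S : Finset (ℤ × ℤ), (∀ p ∈ S, p ∈ G) ∧ z ∈ rat u S) ↔ z ∈ rat u G := by
  constructor
  · rintro ⟨S, h1, h2⟩
    exact rat_mono _ (fun p hp => h1 p (Finset.mem_coe.1 hp)) h2
  · intro h
    obtain ⟨S, h1, h2⟩ := rat_finite u h
    exact ⟨S, fun p hp => h1 (Finset.mem_coe.2 hp), h2⟩

/-- the functional equations over `ℂ` of a polynomial over `k` -/
def Fk (loc : Bool) (f : MvPolynomial (Fin n) k) : Polynomial ℂ → Prop :=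
  Feq loc (map (algebraMap k ℂ) f)

theorem refined_iff (loc : Bool) (f : MvPolynomial (Fin n) k) (x : Fin n → K) :
    Refined loc f x ↔ RefinedIn (RingHom.id (MK K)) loc f x := by
  unfold RefinedIn
  rw [map_id', Lw_id]
  exact Iff.rfl

theorem refinedIn_iff {R : Type} [CommRing R] (θ : MK K →+* R) (loc : Bool)
    (f : MvPolynomial (Fin n) k) (x : Fin n → K) :
    RefinedIn θ loc f x ↔ fst (Lw θ) * PowerSeries.map θ
      (zeta (map (algebraMap k K) f) x) ∈ rat (Lw θ) (QR (Fk loc f)) :=
  iff_rat

theorem strongIn_iff {R : Type} [CommRing R] (θ : MK K →+* R) (loc : Bool)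
    (f : MvPolynomial (Fin n) k) (x : Fin n → K) :
    StrongIn θ loc f x ↔ PowerSeries.map θ (zeta (map (algebraMap k K) f) x) ∈
      rat (Lw θ) (QF (Fk loc f)) :=
  iff_rat

theorem strong_iff (loc : Bool) (f : MvPolynomial (Fin n) k) (x : Fin n → K) :
    Strong loc f x ↔ zeta (map (algebraMap k K) f) x ∈ rat (Lu K) (QF (Fk loc f)) :=
  iff_rat

theorem root_neg_one (loc : Bool) {f : MvPolynomial (Fin n) k} (hf : f.totalDegree ≠ 0)
    (h0 : loc = true → constantCoeff f = 0) : ∀ b, Fk loc f b → b.eval (-1) = 0 := by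
  intro b hb
  cases loc with
  | false => exact fe_neg_one hf hb
  | true => exact lfe_neg_one hf (h0 rfl) hb

theorem reduces {m κ : ℕ} {f : MvPolynomial (Fin n) k} {F : MvPolynomial (Fin m) k}
    (h : Rc f F κ) (hf : f.totalDegree ≠ 0) (loc : Bool) (h0 : loc = true → constantCoeff f = 0)
    (x : Fin n → K) (hx : aeval x (map (algebraMap k K) f) = 0) (y : Fin m → K)
    (hy : ∀ j : ℕ, zeta (itr (map (algebraMap k K) f) (κ + j)) (pz x (κ + j)) =
        zeta (map (algebraMap k K) (itr F j)) (pz y j)) : Reduces loc f x F y := by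
  have hs : ∀ j, Sh (κ + j) (Fk loc f) (Fk loc (itr F j)) := by
    intro j
    cases loc with
    | false => exact h.sh hf j
    | true => exact h.shl hf (h0 rfl) j
  have hK : CharZero K := charK k K
  have key : ∀ (R : Type) [CommRing R] (θ : MK K →+* R),
      RefinedIn θ loc F y → RefinedIn θ loc (itr F 1) (pz y 1) → RefinedIn θ loc f x := by
    intro R _ θ h1 h2
    rw [refinedIn_iff] at h1 h2 ⊢
    refine pts_fst θ (Fk loc f) (fun j => Fk loc (itr F j)) hs x hx y hy fun j hj => ?_
    interval_cases j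
    · rw [pz_nil]
      exact h1
    · exact h2
  refine ⟨fun h1 h2 => ?_, fun R _ θ => ⟨key R θ, fun hu h1 => ?_⟩⟩
  · rw [refined_iff] at h1 h2 ⊢
    exact key (MK K) _ h1 h2
  · have h2 := pts_loc θ hu (Fk loc f) (fun j => Fk loc (itr F j)) hs x hx y hy
      fun j hj => (strongIn_iff _ _ _ _).1 (h1 j hj)
    exact ⟨(refinedIn_iff θ loc f x).2 h2,
      (strongIn_iff θ loc f x).2 (of_fst_f (root_neg_one loc hf h0) h2)⟩

end

/-- **Cubic polynomials suffice for the motivic monodromy conjecture at points.**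

(1) For every non-constant `f ∈ k[x_1, …, x_n]` there are `κ` and a polynomial `F` in `n + 2 κ`
variables such that all `F_j = F + y_1 z_1 + ⋯ + y_j z_j` satisfy `Cub F_j` and the conjecture for `f` is
reduced to the `F_j`, at all points (`ReducesTo`).
(2) For all `K ⊃ k` the conjecture for all polynomials is equivalent to the conjecture for the
polynomials with `Cub f`, in the refined form and in the form for the images under `θ : 𝓜_K → R`
(`Equivalence`).
(3) The refined form implies the conjecture. -/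
theorem result (k : Type) [Field k] [Algebra k ℂ] :
    (∀ (n : ℕ) (f : MvPolynomial (Fin n) k), f.totalDegree ≠ 0 →
      ∃ (κ : ℕ) (F : MvPolynomial (Fin (n + 2 * κ)) k), ReducesTo f F) ∧
    (∀ (K : Type) [Field K] [Algebra k K], Equivalence k K) ∧
    ∀ (K : Type) [Field K] [Algebra k K] (n : ℕ) (f : MvPolynomial (Fin n) k),
      f.totalDegree ≠ 0 → ∀ x : Fin n → K, (Refined false f x → Strong false f x) ∧
        (constantCoeff f = 0 → Refined true f x → Strong true f x) := by
  have key : ∀ (n : ℕ) (f : MvPolynomial (Fin n) k), f.totalDegree ≠ 0 →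
      ∃ (κ : ℕ) (F : MvPolynomial (Fin (n + 2 * κ)) k), ReducesTo f F := by
    intro n f hf
    obtain ⟨κ, m, F, hm, hF, h⟩ := exists_cubic f
    subst hm
    refine ⟨κ, F, h.deg hf, cub_itr hF, fun K _ _ x hx => ?_⟩
    have hx' : aeval x (map (algebraMap k K) f) = 0 := by
      rw [aeval_map_algebraMap, hx]
    obtain ⟨y, hy, hy0, hz⟩ := h.pts rfl x hx'
    refine ⟨y, ?_, reduces h hf false (fun h => absurd h (by decide)) x hx' y hz,
      fun h1 => ⟨hy0 h1, ?_⟩⟩
    · rw [aeval_map_algebraMap] at hy
      exact hy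
    · refine reduces h hf true (fun _ => ?_) x hx' y hz
      rw [h1] at hx
      have h2 := aeval_zero (R := k) (S₁ := K) f
      rw [hx] at h2
      exact (map_eq_zero (algebraMap k K)).1 h2.symm
  have hitr : ∀ (K : Type) [Field K] [Algebra k K] {m : ℕ} (F : MvPolynomial (Fin m) k)
      (y : Fin m → K), aeval y F = 0 → ∀ j, aeval (pz y j) (itr F j) = 0 := by
    intro K _ _ m F y hy j
    have hK : CharZero K := charK k K
    rw [← aeval_map_algebraMap K, map_itr, aeval_pz, aeval_map_algebraMap, hy]
  have hz0 : ∀ (K : Type) [Field K] [Algebra k K] {m : ℕ} (F : MvPolynomial (Fin m) k),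
      constantCoeff F = 0 ↔ aeval (0 : Fin m → K) F = 0 := by
    intro K _ _ m F
    have h2 := aeval_zero (R := k) (S₁ := K) F
    constructor
    · intro h
      rw [h, map_zero] at h2
      exact h2
    · intro h
      exact (map_eq_zero (algebraMap k K)).1 (h2.symm.trans h)
  have hfl : ∀ {n : ℕ} (f : MvPolynomial (Fin n) k), false = true → Cub f :=
    fun f h => absurd h (by decide)
  refine ⟨key, fun K _ _ => ⟨⟨fun h n f _ hf => h n f (hfl f) hf, fun h n f _ hf x hx => ?_⟩,
    ⟨fun h n f _ hf => h n f (hfl f) hf, fun h n f _ hf hx => ?_⟩, fun R _ θ hu =>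
    ⟨⟨fun h n f _ hf => h n f (hfl f) hf, fun h n f _ hf x hx => ?_⟩,
    ⟨fun h n f _ hf => h n f (hfl f) hf, fun h n f _ hf hx => ?_⟩⟩⟩,
    fun K _ _ n f hf x => ⟨fun h => ?_, fun h0 h => ?_⟩⟩
  · obtain ⟨κ, F, hF, hc, h1⟩ := key n f hf
    obtain ⟨y, hy, h2, -⟩ := h1 K x hx
    exact h2.1 (h _ F (fun _ => hc 0) hF y hy) (h _ (itr F 1) (fun _ => hc 1) (itr_deg hF 1)
      (pz y 1) (hitr K F y hy 1))
  · obtain ⟨κ, F, hF, hc, h1⟩ := key n f hf
    obtain ⟨y, hy, -, h2⟩ := h1 K 0 ((hz0 K f).1 hx)
    obtain ⟨rfl, h3⟩ := h2 rfl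
    have hF0 : constantCoeff F = 0 := (hz0 K F).2 hy
    refine h3.1 (h _ F (fun _ => hc 0) hF hF0) ?_
    rw [pz_zero]
    exact h _ (itr F 1) (fun _ => hc 1) (itr_deg hF 1) (itr_const hF0 1)
  · obtain ⟨κ, F, hF, hc, h1⟩ := key n f hf
    obtain ⟨y, hy, h2, -⟩ := h1 K x hx
    exact (((h2.2 R θ).2 hu) fun j _ => h _ (itr F j) (fun _ => hc j) (itr_deg hF j) (pz y j)
      (hitr K F y hy j)).2
  · obtain ⟨κ, F, hF, hc, h1⟩ := key n f hf
    obtain ⟨y, hy, -, h2⟩ := h1 K 0 ((hz0 K f).1 hx)
    obtain ⟨rfl, h3⟩ := h2 rfl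
    have hF0 : constantCoeff F = 0 := (hz0 K F).2 hy
    refine (((h3.2 R θ).2 hu) fun j _ => ?_).2
    rw [pz_zero]
    exact h _ (itr F j) (fun _ => hc j) (itr_deg hF j) (itr_const hF0 j)
  · rw [refined_iff, refinedIn_iff, map_id', Lw_id] at h
    rw [strong_iff]
    exact of_fst_f (root_neg_one false hf fun h => absurd h (by decide)) h
  · rw [refined_iff, refinedIn_iff, map_id', Lw_id] at h
    rw [strong_iff]
    exact of_fst_f (root_neg_one true hf fun _ => h0) h

end Pool.Agent.Results.MP_b91a16_ag.CubicsSuffice
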